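import Pool.Agent.helper55.BL.Spec

set_option autoImplicit false

namespace Pool.Agent.helper55.BL

open Finset
open scoped Classical
open Pool.Agent.helper61.BM (Clo dg)

theorem DIA_up (R : ℕ → ℕ → Prop) : ∀ (n s : ℕ), (∀ j, s ≤ j → j + 1 < s + n → R j (j + 1)) →
    (List.range' s n).IsChain R := by
  intro n
  induction n with
  | zero => intro s _; simp
  | succ n ih =>
    intro s h
    cases n with
    | zero => simp
    | succ n =>
      have h1 := ih (s + 1) (fun j hj hj2 => h j (by omega) (by omega))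
      rw [List.range'_succ, List.range'_succ]
      rw [List.range'_succ] at h1
      rw [List.isChain_cons_cons]
      exact ⟨h s le_rfl (by omega), h1⟩

theorem DIA_X {V : Type} (G : SimpleGraph V) (m : ℕ) (p : ℕ → V) (hP : Pth G m p) (a i : ℕ) (hia : i < a)
    (ham : a ≤ m) (h0 : ∀ v, G.Adj (p 0) v → ∃ j, j ≤ m ∧ p j = v) (h0a : G.Adj (p 0) (p a))
    (hmax : ∀ j, j ≤ m → G.Adj (p 0) (p j) → j ≤ a) :
    ∃ X : List V, Pa G X ∧ X.head? = some (p i) ∧ X.getLast? = some (p a) ∧
      (∀ v ∈ X, ∃ j, j ≤ a ∧ p j = v) ∧ p 0 ∈ X ∧ ∀ v, G.Adj (p 0) v → v ∈ X := by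
  have hex : ∃ r, i < r ∧ G.Adj (p 0) (p r) := ⟨a, hia, h0a⟩
  obtain ⟨hr1, hr2⟩ := Nat.find_spec hex
  have hr3 : Nat.find hex ≤ a := Nat.find_min' hex ⟨hia, h0a⟩
  have hr4 : ∀ j, i < j → G.Adj (p 0) (p j) → Nat.find hex ≤ j :=
    fun j hj hj2 => Nat.find_min' hex ⟨hj, hj2⟩
  generalize Nat.find hex = r at *
  set L : List ℕ := (List.range' 0 (i + 1)).reverse ++ List.range' r (a + 1 - r) with hL
  have hmem : ∀ j, j ∈ L ↔ (j ≤ i ∨ (r ≤ j ∧ j ≤ a)) := by
    intro j
    rw [hL, List.mem_append, List.mem_reverse, List.mem_range'_1, List.mem_range'_1]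
    omega
  have hnd : L.Nodup := by
    rw [hL, List.nodup_append]
    refine ⟨?_, ?_, ?_⟩
    · rw [List.nodup_reverse]; exact List.nodup_range'
    · exact List.nodup_range'
    · intro x hx y hy hxy
      rw [List.mem_reverse, List.mem_range'_1] at hx
      rw [List.mem_range'_1] at hy
      omega
  have hch : L.IsChain (fun x y => G.Adj (p x) (p y)) := by
    rw [hL, List.isChain_append]
    refine ⟨?_, ?_, ?_⟩
    · rw [List.isChain_reverse]
      apply DIA_up
      intro j _ hj
      exact (hP.adj j (by omega)).symm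
    · apply DIA_up
      intro j _ hj
      exact hP.adj j (by omega)
    · intro x hx y hy
      rw [List.getLast?_reverse] at hx
      rw [List.range'_succ] at hx
      have hx2 : x = 0 := by simpa using hx.symm
      have h3 : a + 1 - r = (a - r) + 1 := by omega
      rw [h3, List.range'_succ] at hy
      have hy2 : y = r := by simpa using hy.symm
      subst hx2; subst hy2
      exact hr2
  refine ⟨L.map p, ⟨?_, ?_⟩, ?_, ?_, ?_, ?_, ?_⟩
  · apply List.Nodup.map_on _ hnd
    intro x hx y hy hxy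
    rw [hmem] at hx hy
    exact hP.inj x y (by omega) (by omega) hxy
  · rw [List.isChain_map]; exact hch
  · rw [List.head?_map, hL, List.head?_append]
    rw [List.head?_reverse]
    have h4 : (List.range' 0 (i + 1)).getLast? = some i := by
      rw [← List.range_eq_range', List.range_succ]
      simp
    rw [h4]; simp
  · have h5 : (List.range' r (a + 1 - r)).getLast? = some a := by
      have h3 : a + 1 - r = (a - r) + 1 := by omega
      rw [h3, List.range'_concat]
      simp
      omega
    rw [List.getLast?_map, hL, List.getLast?_append, h5]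
    simp
  · intro v hv
    rw [List.mem_map] at hv
    obtain ⟨j, hj, rfl⟩ := hv
    rw [hmem] at hj
    exact ⟨j, by omega, rfl⟩
  · exact List.mem_map.2 ⟨0, (hmem 0).2 (Or.inl (Nat.zero_le _)), rfl⟩
  · intro v hv
    obtain ⟨j, hj, rfl⟩ := h0 v hv
    have h6 := hmax j hj hv
    refine List.mem_map.2 ⟨j, (hmem j).2 ?_, rfl⟩
    rcases Nat.lt_or_ge i j with h7 | h7
    · exact Or.inr ⟨hr4 j h7 hv, h6⟩
    · exact Or.inl h7

theorem DIA (hTWP : TWP_stmt) (hCLS : CLS_stmt) : DIA_stmt := by
  intro V _ G m p k a b hT hP hn0 hnm ha hab hbm h0a hmax hmb hmin hk0 hkm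
  obtain ⟨i, q, R₁, R₂, hTP⟩ := hTWP V G m p hT hP a b ha hab hbm
  have hia := hTP.hi
  have hbq := hTP.hq
  have hqm := hTP.hm
  obtain ⟨X, hX1, hX2, hX3, hX4, hX5, hX6⟩ := DIA_X G m p hP a i hia (by omega) hn0 h0a hmax
  have hP' : Pth G m (fun j => p (m - j)) := by
    refine ⟨?_, ?_⟩
    · intro x y hx hy hxy
      have := hP.inj (m - x) (m - y) (by omega) (by omega) hxy
      omega
    · intro x hx
      have h1 := hP.adj (m - (x + 1)) (by omega)
      have h2 : m - (x + 1) + 1 = m - x := by omega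
      rw [h2] at h1
      exact h1.symm
  have e0 : m - 0 = m := Nat.sub_zero m
  have eb : m - (m - b) = b := by omega
  have eq1 : m - (m - q) = q := by omega
  obtain ⟨Y, hY1, hY2, hY3, hY4, hY5, hY6⟩ := DIA_X G m (fun j => p (m - j)) hP' (m - b) (m - q)
    (by omega) (by omega)
    (by
      intro v hv
      obtain ⟨j, hj, hjv⟩ := hnm v (by simpa only [e0] using hv)
      refine ⟨m - j, by omega, ?_⟩
      have : m - (m - j) = j := by omega
      show p (m - (m - j)) = v
      rw [this]; exact hjv)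
    (by
      show G.Adj (p (m - 0)) (p (m - (m - b)))
      rw [e0, eb]; exact hmb)
    (by
      intro j hj hadj
      have hadj2 : G.Adj (p (m - 0)) (p (m - j)) := hadj
      rw [e0] at hadj2
      have := hmin (m - j) (by omega) hadj2
      omega)
  simp only [e0, eb, eq1] at hY2 hY3 hY5 hY6
  obtain ⟨l, hl1, hl2, hl3⟩ := hCLS V G m p hP a b i q R₁ R₂ hab hTP X Y.reverse hX1
    ⟨List.nodup_reverse.2 hY1.1, by
      rw [List.isChain_reverse]
      exact hY1.2.imp (fun x y hxy => hxy.symm)⟩ hX2 hX3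
    (by rw [List.head?_reverse]; exact hY3) (by rw [List.getLast?_reverse]; exact hY2) hX4
    (by
      intro v hv
      obtain ⟨j, hj, hjv⟩ := hY4 v (List.mem_reverse.1 hv)
      exact ⟨m - j, by omega, by omega, hjv⟩)
  refine ⟨l, hl1, ?_⟩
  set N0 : Finset V := insert (p 0) ((univ : Finset V).filter (fun w => G.Adj (p 0) w)) with hN0
  set Nm : Finset V := insert (p m) ((univ : Finset V).filter (fun w => G.Adj (p m) w)) with hNm
  have c0 : k + 1 ≤ N0.card := by
    rw [hN0, Finset.card_insert_of_notMem (by simp)]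
    exact Nat.succ_le_succ hk0
  have cm : k + 1 ≤ Nm.card := by
    rw [hNm, Finset.card_insert_of_notMem (by simp)]
    exact Nat.succ_le_succ hkm
  have hsub : N0 ∪ Nm ⊆ l.toFinset := by
    intro v hv
    rw [List.mem_toFinset]
    rcases Finset.mem_union.1 hv with h | h
    · rcases Finset.mem_insert.1 h with h | h
      · subst h; exact hl2 _ hX5
      · exact hl2 _ (hX6 v (Finset.mem_filter.1 h).2)
    · rcases Finset.mem_insert.1 h with h | h
      · subst h; exact hl3 _ (List.mem_reverse.2 hY5)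
      · exact hl3 _ (List.mem_reverse.2 (hY6 v (Finset.mem_filter.1 h).2))
  have hi0 : ∀ v ∈ N0, ∃ j, j ≤ a ∧ p j = v := by
    intro v hv
    rcases Finset.mem_insert.1 hv with h | h
    · exact ⟨0, Nat.zero_le _, h.symm⟩
    · exact hX4 v (hX6 v (Finset.mem_filter.1 h).2)
  have him : ∀ v ∈ Nm, ∃ j, b ≤ j ∧ j ≤ m ∧ p j = v := by
    intro v hv
    rcases Finset.mem_insert.1 hv with h | h
    · exact ⟨m, by omega, le_rfl, h.symm⟩
    · obtain ⟨j, hj, hjv⟩ := hY4 v (hY6 v (Finset.mem_filter.1 h).2)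
      exact ⟨m - j, by omega, by omega, hjv⟩
  have hint : N0 ∩ Nm ⊆ {p a} := by
    intro v hv
    obtain ⟨j, hj, hjv⟩ := hi0 v (Finset.mem_inter.1 hv).1
    obtain ⟨j', hj1, hj2, hjv'⟩ := him v (Finset.mem_inter.1 hv).2
    have h1 := hP.inj j j' (by omega) hj2 (hjv.trans hjv'.symm)
    have h2 : j = a := by omega
    rw [Finset.mem_singleton, ← hjv, h2]
  have h1 := Finset.card_le_card hint
  have h2 := Finset.card_union_add_card_inter N0 Nm
  have h3 := Finset.card_le_card hsub
  have h4 := List.toFinset_card_of_nodup hl1.1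
  rw [Finset.card_singleton] at h1
  omega

end Pool.Agent.helper55.BL
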